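import Pool.Agent.Q6.Filt.Filter

/-!
# MP_5cf805_al, Q1: the degree of transitivity of `GL(V)` on the translates of a maximal filter

Let `V` be an infinite-dimensional vector space over a field `F` and `X` a maximal filter of
subspaces of `V`. For every natural number `k`, the group `GL(V)` acts `k`-transitively on the set
of translates of `X` if and only if `k ≤ 2`: the degree of transitivity is exactly `2`, whatever
`V`, `F` and `X` are.
-/

namespace Pool.Agent.Results.MP_5cf805_al.FilterDegreeTwo

open Q6.Filt Cardinal

universe u v

theorem result (F : Type u) (V : Type v) [Field F] [AddCommGroup V] [Module F V]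
    (hV : ℵ₀ ≤ Module.rank F V) (X : Set (Submodule F V)) (hX : IsMaxFilt X) (k : ℕ) :
    KTransitive k (orbit X) ↔ k ≤ 2 :=
  filter_degree hV hX k

end Pool.Agent.Results.MP_5cf805_al.FilterDegreeTwo
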